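import Pool.Agent.Run7.h780.TW.Pow
import Pool.Agent.Run7.h780.TW.Stm2

/-!
# Zero-cycles on all products of elliptic curves over the algebraic numbers

The conjecture of Beilinson and Bloch predicts that every zero-cycle of degree zero and with sum zero on a
product `E₁ × ⋯ × E_r` of elliptic curves over `ℚ̄` is rationally equivalent to zero.  We find, for every
elliptic curve `E(a₁, b₁)` over `ℚ̄` and every point `P₁` of it, subgroups `Λ_E` of `E(ℚ̄)` for all elliptic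
curves `E` over `ℚ̄` at once, such that `P₁` is in `Λ_{E(a₁, b₁)}`, all `Λ_E` have infinite rank and contain
all the torsion points, and this is true for all the zero-cycles on all the products `E₁ × ⋯ × E_r`
which are supported on `Λ_{E₁} × ⋯ × Λ_{E_r}`.
-/

set_option autoImplicit false

namespace Pool.Agent.Results.MP_b8021b_nt.AlbaneseThroughPoint

open Pool.Agent.Run7.h780.ZS

open scoped Classical in
theorem result (a₁ b₁ : AlgebraicClosure ℚ) (h₁ : 4 * a₁ ^ 3 + 27 * b₁ ^ 2 ≠ 0) (P₁ : Pt a₁ b₁) :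
    ∃ Λ : (a b : AlgebraicClosure ℚ) → AddSubgroup (Pt a b), P₁ ∈ Λ a₁ b₁ ∧
      (∀ a b, 4 * a ^ 3 + 27 * b ^ 2 ≠ 0 →
        ∃ Q : ℕ → Pt a b, LinearIndependent ℤ Q ∧ ∀ n, Q n ∈ Λ a b) ∧
      (∀ a b, ∀ (T : Pt a b) (n : ℕ), n ≠ 0 → n • T = 0 → T ∈ Λ a b) ∧
      ∀ (r : ℕ) (a b : Fin r → AlgebraicClosure ℚ), (∀ i, 4 * a i ^ 3 + 27 * b i ^ 2 ≠ 0) →
        ∀ Z : ((i : Fin r) → Pt (a i) (b i)) →₀ ℤ, (∀ x ∈ Z.support, ∀ i, x i ∈ Λ (a i) (b i)) →
          Z.sum (fun _ m => m) = 0 → Z.sum (fun x m => m • x) = 0 → Z ∈ RatEquiv a b := by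
  obtain ⟨Λ, h1, h2, h3, h4⟩ := Pool.Agent.Run7.h780.TW.system_products P₁
    (mul_ne_zero two_ne_zero h₁)
  exact ⟨Λ, h1, fun a b h => h2 a b (mul_ne_zero two_ne_zero h), h3,
    fun r a b h => h4 r a b fun i => mul_ne_zero two_ne_zero (h i)⟩

end Pool.Agent.Results.MP_b8021b_nt.AlbaneseThroughPoint
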