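import Mathlib
import Pool.Agent.Run7.h707.TE.Fin
import Pool.Agent.Run7.h707.TE.Ex

/-!
# The Beilinson-Bloch conjecture (ranks) for diagonal cubic curves, threefolds and fivefolds over the
# fields generated by cube roots: a positive proportion of all pairs (variety, field)

`K` is the field of the third roots of unity.  For `c = 0, 1, 2` and every `r ≥ 1` let `(a, b)` run through
ALL the pairs of tuples `a = (a_0, …, a_{2c+2})`, `b = (b_1, …, b_r)` of cube-free elements of `𝓞 K` that are
congruent to third roots of unity modulo `3` (every element prime to `3` is such an element times a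
cube, units included), ordered by `max (N(a_k), N(b_i))`.  Let `X_a` be the smooth cubic hypersurface

  `a_0 x_0³ + … + a_{2c+2} x_{2c+2}³ = 0`

of dimension `n = 2 c + 1`, considered over the number field `F_b = K(∛b_1, …, ∛b_r)`.  For a set `T` of `c`
indices let `δ_T = ∏ a_i ∏_{i ∈ T} a_i`, let `b^ν = ∏ b_i^{ν_i}` for `ν ∈ (ℤ/3)^r`, and let `E_δ` be the
elliptic curve `y² + δ y = x³`.  A pair belongs to the family if none of the elements `δ_T b^ν` is
exceptional (a unit times a cube, or `1` modulo `3` with a norm that is `1` modulo `9`) and no product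
`b^ν`, `ν ≠ 0`, is a unit times a cube.

* The family has a density `κ > 0` among ALL the pairs; `κ` is the proportion of the vectors over `𝔽_3²`
  with all the sums `∑ u_k + ∑_T u_k + ∑ ν_i w_i` different from zero.
* For all the pairs of the family `[F_b : K] = 3^r` and `L(H^n(X_a / F_b), s)` is entire.
* The pairs of the family for which ALL the groups `E_{δ_T b^ν}(K)` are finite and ALL the groups
  `Ш(E_{δ_T b^ν} / K)[3^∞]` are trivial have, among all the pairs, exactly the density
  `κ c₉ ^ (3^r binomial(2 c + 3, c))`, where `c₉ = ∏_{i ≥ 0} (1 - 3^{-(2 i + 1)}) > 0.639`, as if the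
  curves were independent.
* For all of these pairs `L(H^n(X_a / F_b), s)` is not zero at its centre `s = c + 1`, all the groups
  `E_{δ_T}(F_b)` are finite and the groups `Ш(E_{δ_T} / F_b)[3^∞]` are killed by `3^r`.

The `L`-function over `F = F_b` is the complete one, given by the numbers of points: for a place `v` of `F`
not dividing `3 ∏ a_i` the eigenvalues `α` of the Frobenius on `H^n(X_a)` (`2`, `10` and `42` for
`n = 1, 3, 5`) are determined by

  `#X_a(k') = 1 + q' + ... + q'^n - ∑ α^m`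

for all the finite extensions `k'` of the residue field of `v`, `q' = #k'`, `m` the degree of `k'`.  By this
and by Faltings `H^n(X_a)` is the direct sum of the `H^1(E_{δ_T})(-c)`.  At the places of `F` dividing `∏ a_i`,
but not `3`, the curves `E_{δ_T}` with `v(δ_T)` divisible by `3` are isomorphic over `F` to curves `E_r`
with a `v`-unit `r` and have good reduction, the others have no invariants of inertia.  At the places
of `F` dividing `3` none of the curves has invariants of inertia: over `K_v`, `v = √-3`, the inertia acts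
on `H^1(E_δ)` by a character of even order, and the local degrees of `F / K` are powers of `3`.  The fields
`F_b` may be ramified at `3` and at the primes dividing the `a_k`.

Relation to the conjecture (not formalized): the intermediate Jacobian `J` of `X_a` is isogenous over
`K` to the product of the `E_{δ_T}`, and the group of the homologically trivial cycles of codimension
`m` of `X_a / F`, tensored with `ℚ`, is `J(F) ⊗ ℚ` for `m = c + 1` and `0` for all the other `m` (Murre,
Bloch and Murre, Bloch and Srinivas for threefolds; Collino, Paranjape for fivefolds).  So for the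
pairs above `rank CH^m_hom(X_a / F_b) = ord_{s = m} L(H^{2 m - 1}(X_a / F_b), s)` for all `m`, both
sides being zero.

Proof: see the headers of the files `Pool/Agent/Run7/h707/{TC,TD,TE}/*.lean`.  `TD`: the joint law of the
`3`-Selmer groups of the twists by an arbitrary system of monomials in several independent parameters
(large sieve for the cubic symbol, cubic reciprocity, weighted Laplacians of one random graph); `TE`:
the Euler product of `E_δ` over a tower of cubic Kummer extensions is the product of the Euler products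
of the `E_{δ b^ν}` over `K` (all the places, wild and tame, by the splitting of the primes in the steps
of the tower).  The criterion for the nonvanishing of `L(E_δ / K, 1)`, the descent of the points and of
`Ш` and the large sieve are the joint work of the seats named in the headers of the imported files.
-/

set_option autoImplicit false

namespace Pool.Agent.Results.MP_b8021b_nt.DiagonalCubicsRadicalFields

open NumberField IsDedekindDomain WeierstrassCurve
open Pool.Agent.TH841.NF.D (Sha)
open scoped Classical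

/-- The curve `E_δ : y² + δ y = x³`. -/
def curve {F : Type} [Field F] (δ : F) : WeierstrassCurve F := ⟨0, 0, δ, 0, 0⟩

/-- The solutions, not all zero, of `∑ a i x i ^ 3 = 0` in the field `F`. -/
def solutions {m : ℕ} {F : Type} [Field F] (a : Fin m → F) : Set (Fin m → F) :=
  {x | x ≠ 0 ∧ ∑ i, a i * x i ^ 3 = 0}

/-- `δ_T = ∏ a i ∏_{i ∈ T} a i`. -/
def twist {m : ℕ} {R : Type} [CommRing R] (a : Fin m → R) (T : Finset (Fin m)) : R :=
  (∏ i, a i) * ∏ i ∈ T, a i

/-- `b^ν = ∏ b i ^ ν i`, the exponents in `{0, 1, 2}`. -/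
def power {r : ℕ} {R : Type} [CommRing R] (b : Fin r → R) (ν : Fin r → ZMod 3) : R :=
  ∏ i, b i ^ (ν i).val

section localData
variable {F : Type} [Field F] [NumberField F]

/-- `A` is the multiset of the eigenvalues of the Frobenius at `v` on `H^n(X)`, for the hypersurface
`X : ∑ a i x i ^ 3 = 0` of dimension `n = 2 c + 1` over `F`: for every extension `k` of degree `m` of the
residue field of `v` (`f` is the reduction), with `q'` elements, the equation has
`(q' - 1) (1 + q' + ... + q'^n - ∑ α^m)` nonzero solutions in `k`. -/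
def IsFrobenius {c : ℕ} (a : Fin (2 * c + 3) → 𝓞 F) (v : HeightOneSpectrum (𝓞 F))
    (A : Multiset ℂ) : Prop :=
  ∀ (k : Type) [Field k] [Finite k] (f : 𝓞 F →+* k) (m : ℕ), RingHom.ker f = v.asIdeal →
    Nat.card k = Ideal.absNorm v.asIdeal ^ m →
    ((solutions fun i => f (a i)).ncard : ℂ) = (Nat.card k - 1) *
      (∑ i ∈ Finset.range (2 * c + 2), (Nat.card k : ℂ) ^ i - (A.map (fun α => α ^ m)).sum)

/-- `δ` is a cube of `F` times an element `r` of `𝓞 F` prime to `v`; so `E_δ` is isomorphic to `E_r`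
over `F` and has good reduction at `v`, if `v` does not divide `3`. -/
def HasGoodReduction (δ : 𝓞 F) (v : HeightOneSpectrum (𝓞 F)) : Prop :=
  ∃ r z z' : 𝓞 F, z ≠ 0 ∧ r ∉ v.asIdeal ∧ δ * z ^ 3 = r * z' ^ 3

/-- For a place `v` not dividing `3`: `B` is the multiset of the eigenvalues of the Frobenius at `v` on
the invariants of inertia of `H^1(E_δ)(-c)`.  If `δ` is a cube times an element `r` prime to `v`, it
consists of `N(v)^c β` and `N(v)^c conj β`, where `β conj β = N(v)` and the affine curve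
`y² + r y = x³` has `N(v) - (β + conj β)` points over the residue field; otherwise it is empty. -/
def IsLocal (δ : 𝓞 F) (v : HeightOneSpectrum (𝓞 F)) (c : ℕ) (B : Multiset ℂ) : Prop :=
  (∃ r z z' : 𝓞 F, z ≠ 0 ∧ r ∉ v.asIdeal ∧ δ * z ^ 3 = r * z' ^ 3 ∧ ∃ β : ℂ,
    β * (starRingEnd ℂ) β = Ideal.absNorm v.asIdeal ∧
    (Nat.card {P : (𝓞 F ⧸ v.asIdeal) × (𝓞 F ⧸ v.asIdeal) //
      P.2 ^ 2 + Ideal.Quotient.mk v.asIdeal r * P.2 = P.1 ^ 3} : ℂ) =
        Ideal.absNorm v.asIdeal - (β + (starRingEnd ℂ) β) ∧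
    B = {(Ideal.absNorm v.asIdeal : ℂ) ^ c * β,
      (Ideal.absNorm v.asIdeal : ℂ) ^ c * (starRingEnd ℂ) β}) ∨
  (¬ HasGoodReduction δ v ∧ B = 0)

/-- `L` is entire and equal to `L(H^n(X_a / F), s)` for `Re s > n / 2 + 1`, for the hypersurface
`X_a : ∑ a i x i ^ 3 = 0` of dimension `n = 2 c + 1` over `F`.  At the places `v` not dividing `3 ∏ a i` the
`2 (2c+3 choose c)` eigenvalues of the Frobenius have the absolute value `N(v)^(n / 2)`.  At all the
places not dividing `3` the eigenvalues are those of the `H^1(E_{δ_T})(-c)` together, `T` running through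
the sets of `c` indices.  At the places dividing `3` the Euler factor is `1`. -/
def IsLFunction {c : ℕ} (a : Fin (2 * c + 3) → 𝓞 F) (L : ℂ → ℂ) : Prop :=
  Differentiable ℂ L ∧ ∃ A : HeightOneSpectrum (𝓞 F) → Multiset ℂ,
    (∀ v, (3 : 𝓞 F) ∉ v.asIdeal → (∀ i, a i ∉ v.asIdeal) → IsFrobenius a v (A v) ∧
      (A v).card = 2 * (2 * c + 3).choose c ∧
      ∀ α ∈ A v, ‖α‖ ^ 2 = (Ideal.absNorm v.asIdeal : ℝ) ^ (2 * c + 1)) ∧
    (∀ v, (3 : 𝓞 F) ∉ v.asIdeal → ∃ B : Finset (Fin (2 * c + 3)) → Multiset ℂ,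
      (∀ T : Finset (Fin (2 * c + 3)), T.card = c → IsLocal (twist a T) v c (B T)) ∧
      A v = ∑ T ∈ (Finset.univ : Finset (Fin (2 * c + 3))).powersetCard c, B T) ∧
    (∀ v, (3 : 𝓞 F) ∈ v.asIdeal → A v = 0) ∧
    ∀ s : ℂ, (2 * c + 1 : ℝ) / 2 + 1 < s.re →
      HasProd (fun v : HeightOneSpectrum (𝓞 F) => ((A v).map
        (fun α => (1 - α * (Ideal.absNorm v.asIdeal : ℂ) ^ (-s))⁻¹)).prod) (L s)

end localData

variable {K : Type} [Field K] [NumberField K]

/-- `F` is generated over `K` by the cube roots `θ i` of the elements `b i`. -/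
def IsRadical {r : ℕ} (b : Fin r → 𝓞 K) (F : Type) [Field F] [Algebra K F] (θ : Fin r → F) : Prop :=
  (∀ i, θ i ^ 3 = algebraMap K F (b i)) ∧
    ∀ S : Subfield F, (∀ x : K, algebraMap K F x ∈ S) → (∀ i, θ i ∈ S) → S = ⊤

/-- `a` is cube-free and congruent to a third root of unity modulo `3`. -/
def Admissible (a : 𝓞 K) : Prop :=
  (∀ x : 𝓞 K, x ^ 3 ∣ a → IsUnit x) ∧ ∃ ω : 𝓞 K, ω ^ 3 = 1 ∧ (3 : 𝓞 K) ∣ a - ω

/-- `δ` is a unit times a cube. -/
def UnitTimesCube (δ : 𝓞 K) : Prop := ∃ u x : 𝓞 K, IsUnit u ∧ δ = u * x ^ 3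

/-- `δ` is a unit times a cube, or `1` modulo `3` with a norm that is `1` modulo `9`. -/
def Exceptional (δ : 𝓞 K) : Prop :=
  (∃ u x : 𝓞 K, IsUnit u ∧ δ = u * x ^ 3) ∨
    ((3 : 𝓞 K) ∣ δ - 1 ∧ (9 : ℤ) ∣ Algebra.norm ℤ δ - 1)

/-- The pairs of tuples: `2 c + 3` coefficients and `r` field parameters. -/
abbrev Tuples (K : Type) [Field K] (c r : ℕ) : Type := (Fin (2 * c + 3) → 𝓞 K) × (Fin r → 𝓞 K)

/-- All the pairs of norm at most `X`. -/
def Pair {c r : ℕ} (X : ℕ) (p : Tuples K c r) : Prop :=
  (∀ k, Algebra.norm ℤ (p.1 k) ≤ X ∧ Admissible (p.1 k)) ∧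
    ∀ i, Algebra.norm ℤ (p.2 i) ≤ X ∧ Admissible (p.2 i)

/-- None of the elements `δ_T b^ν` is exceptional and no `b^ν`, `ν ≠ 0`, is a unit times a cube. -/
def InFamily {c r : ℕ} (p : Tuples K c r) : Prop :=
  (∀ T : Finset (Fin (2 * c + 3)), T.card = c → ∀ ν : Fin r → ZMod 3,
    ¬ Exceptional (twist p.1 T * power p.2 ν)) ∧
    ∀ ν : Fin r → ZMod 3, ν ≠ 0 → ¬ UnitTimesCube (power p.2 ν)

/-- `E_δ(K)` is finite and the `3`-primary part of `Ш(E_δ / K)` is trivial. -/
def FiniteAndTrivial (δ : 𝓞 K) : Prop :=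
  Finite (curve (δ : K)).toAffine.Point ∧ ∀ (n : ℕ) (x : Sha (curve (δ : K))), 3 ^ n • x = 0 → x = 0

/-- All the groups `E_{δ_T b^ν}(K)` are finite and all the `Ш(E_{δ_T b^ν} / K)[3^∞]` are trivial. -/
def AllTrivial {c r : ℕ} (p : Tuples K c r) : Prop :=
  ∀ T : Finset (Fin (2 * c + 3)), T.card = c → ∀ ν : Fin r → ZMod 3,
    FiniteAndTrivial (twist p.1 T * power p.2 ν)

/-- The density of the family. -/
noncomputable def kappa (c r : ℕ) : ℝ :=
  ({u : (Fin (2 * c + 3) → ZMod 3 × ZMod 3) × (Fin r → ZMod 3 × ZMod 3) |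
    ∀ T : Finset (Fin (2 * c + 3)), T.card = c → ∀ ν : Fin r → ZMod 3,
    ∑ k, u.1 k + ∑ k ∈ T, u.1 k + ∑ i, (ν i).val • u.2 i ≠ 0}.ncard : ℝ) / 9 ^ (2 * c + 3 + r)

/-- The number of the pairs of norm at most `X` with the property `P`. -/
noncomputable def number {c r : ℕ} (X : ℕ) (P : Tuples K c r → Prop) : ℝ :=
  ({p : Tuples K c r | Pair X p ∧ P p}.ncard : ℝ)

/-- The property `P` has the density `d` among all the pairs. -/
def HasDensity {c r : ℕ} (P : Tuples K c r → Prop) (d : ℝ) : Prop :=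
  Filter.Tendsto (fun X : ℕ => number X P / number X (fun _ : Tuples K c r => True)) Filter.atTop
    (nhds d)

/-- `E_δ(F)` is finite and the `3`-primary part of `Ш(E_δ / F)` is killed by `3^r`. -/
def FiniteAndKilled (F : Type) [Field F] [NumberField F] [Algebra K F] (r : ℕ) (δ : 𝓞 K) : Prop :=
  Finite (curve (algebraMap K F δ)).toAffine.Point ∧
    ∀ (n : ℕ) (x : Sha (curve (algebraMap K F δ))), 3 ^ n • x = 0 → 3 ^ r • x = 0

/-- The statement on `X_a` over `F`: `[F : K] = 3^r`, the function `L(H^n(X_a / F), s)` is entire and, if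
all the `E_{δ_T b^ν}(K)` are finite and all the `Ш(E_{δ_T b^ν} / K)[3^∞]` trivial, then it is not zero at
the centre, the `E_{δ_T}(F)` are finite and `3^r` kills the `Ш(E_{δ_T} / F)[3^∞]`. -/
def Conclusion {c r : ℕ} (p : Tuples K c r) (F : Type) [Field F] [NumberField F]
    [Algebra K F] : Prop :=
  Module.finrank K F = 3 ^ r ∧ ∃ L : ℂ → ℂ,
    IsLFunction (fun k => algebraMap (𝓞 K) (𝓞 F) (p.1 k)) L ∧
    (AllTrivial p → L (c + 1) ≠ 0 ∧ ∀ T : Finset (Fin (2 * c + 3)), T.card = c →
      FiniteAndKilled F r (twist p.1 T))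

/-- **Main theorem.** -/
theorem result (K : Type) [Field K] [NumberField K] [IsCyclotomicExtension {3} ℚ K] :
    (0.639 : ℝ) < ∏' i : ℕ, (1 - (1 / 3 : ℝ) ^ (2 * i + 1)) ∧
    ∀ c : ℕ, c ≤ 2 → ∀ r : ℕ, 1 ≤ r →
      0 < kappa c r ∧
      (∃ C : ℝ, 0 < C ∧ ∃ X₀ : ℕ, ∀ X : ℕ, X₀ ≤ X →
        C * (X : ℝ) ^ (2 * c + 3 + r) ≤ number X (fun _ : Tuples K c r => True)) ∧
      HasDensity (fun p : Tuples K c r => InFamily p) (kappa c r) ∧
      HasDensity (fun p : Tuples K c r => InFamily p ∧ AllTrivial p) (kappa c r *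
        (∏' i : ℕ, (1 - (1 / 3 : ℝ) ^ (2 * i + 1))) ^ ((2 * c + 3).choose c * 3 ^ r)) ∧
      ∀ p : Tuples K c r, (∀ k, Admissible (p.1 k)) → (∀ i, Admissible (p.2 i)) → InFamily p →
        (∃ (F : Type) (_ : Field F) (_ : NumberField F) (_ : Algebra K F) (θ : Fin r → F),
          IsRadical p.2 F θ) ∧
        ∀ (F : Type) [Field F] [NumberField F] [Algebra K F] (θ : Fin r → F), IsRadical p.2 F θ →
          Conclusion p F := by
  obtain ⟨h0, h⟩ := Run7.h707.TE.finE K
  refine ⟨h0, fun c hc r _ => ?_⟩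
  obtain ⟨h1, h2, h3, h4, h5⟩ := h c hc r
  have e : ∀ X : ℕ, number X (fun _ : Tuples K c r => True) =
      ({p : Tuples K c r | Pair X p}.ncard : ℝ) := fun X => by
    unfold number
    simp only [and_true]
  refine ⟨h1, ?_, ?_, ?_, fun p hA hB hF => ⟨Run7.h707.TE.ex_F (fun i => (p.2 i : K)),
    fun F _ _ _ θ hθ => h5 p hA hB hF F θ hθ.1 hθ.2⟩⟩
  · simp only [e]
    exact h2
  · unfold HasDensity
    simp only [e]
    exact h3
  · unfold HasDensity
    simp only [e]
    exact h4

end Pool.Agent.Results.MP_b8021b_nt.DiagonalCubicsRadicalFields
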