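import Pool.Agent.Run7.h61.JL.Fin

/-!
# Orders at the centre of the averages of L-functions of Jacobians, in all degrees

`K` is a number field (for instance `ℚ`). For `i ∈ I` let `f_(i,t) = F_i + ∏ (X - x_j) (∑ t_n P_n)`,
`t ∈ (𝓞 K)^(J i)`, be a family of monic polynomials of degree `d_i ≥ 3` over the integers of `K` with
`f(x_j) = y_j² ≠ 0` for `r_i ≥ 0` fixed points `(x_j, y_j)`, in which `X^0, …, X^(N_i - 1)` are among the
`P_n` (for instance all such polynomials, `N_i = d_i - r_i`), let `C_i` be the curve `y² = f_(i,t)(x)`, of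
genus `⌊(d_i - 1) / 2⌋`, and `J_i` its Jacobian. Let `ρ_i = r_i` if `d_i` is odd and `ρ_i = r_i + 1` if
`d_i` is even: this is the number of the marked points of the Jacobian (the `(x_j, ± y_j)` and the two
points at infinity).

Let `M` be a polynomial with integral coefficients in the variables `X_(i,n)`, with all monomials of
weight `≤ w` and of the same parity as `w`; put `M_t = ∑_e M_e ⊗ (Λ^n h¹(C_i))^(⊗ e(i,n)) (-(w - wt e)/2)`,
`Λ^n h¹(C_i) = h^n(J_i)`. So `M_t` is any (virtual) motive of weight `w` in the tensor category generated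
by the `h¹(C_i)`. It is assumed that twice the weight of the monomials in the `X_(i,n)` is at most `N_i`
and less than `d_i` for every `i` (if all the coefficients are free: the weight is at most the genus).

`inv M` is the number of the multigraphs with loops whose vertices are the factors `Λ^n h¹(C_i)` of the
monomials of `M`, such a vertex having the degree `n`, and whose edges join only factors with the same
`i`, and `rk M` is the number of these graphs with a marked factor, in which the degree of this factor is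
`n - 1`, with the weight `ρ_i`. Let `ψ²` be the second Adams operation, and
`κ = (k² (inv M² - (inv M)²) + k (inv ψ²M - inv M)) / 2`, which is an integer.

For every integer `k` there is a function `G`, holomorphic for `Re s > w/2 + 1/3` and positive at the
real points of this half-plane, such that

* the mean value of `L(M_t, s)^k` over the `t` in a box for which all curves are smooth converges to
  `ζ_K(s - ⌊w/2⌋)^(k (inv M - rk M)) ζ_K(2s - w)^κ G(s)` in the half-plane of convergence `Re s > w/2+1`;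
* if `w` is odd then `inv M = 0`; the limit continues past the centre `s = (w + 1)/2` and its order of
  vanishing there is exactly `k rk M - κ`;
* if `w` is even then `rk M = 0`; the limit has a pole of order exactly `k inv M` at `s = w/2 + 1`;
* in the whole half-plane `Re s > w/2 + 1/3`, so around the centre, the same is true for the partial
  Euler products, normalised by those of the zeta functions.

For `M = X_(i,n)`, that is for `L(H^n(J_t), s)`, `n ≤ N_i / 2`, `n < d_i / 2` (every `n ≤ g` if all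
coefficients are free): if `n = 2m - 1` then `rk M = ρ`, `κ = m k (k - 1) / 2`, so for `k = 1` the average
of `L(H^(2m-1)(J_t), s)` vanishes at `s = m` to the order `ρ` exactly, for every `m`; if `n = 2m` then
`inv M = 1` and `κ = m k (k + 1) / 2`.
-/

set_option autoImplicit false
open NumberField IsDedekindDomain Filter Topology

namespace Pool.Agent.Results.MP_b8021b_nt.ExteriorPowersOnAverage

open Run7.h61.JL Run7.h876.EN
open Run7.h876.HY (partialZeta)

/-- **The moments of the L-functions of the exterior powers, and of their tensor products.** -/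
theorem result (K : Type) [Field K] [NumberField K] (I : Type) [Fintype I] [DecidableEq I] [Nonempty I]
    (J : I → Type) [∀ i, Fintype (J i)] [∀ i, DecidableEq (J i)] (𝓕 : ∀ i, Family K (J i)) :
    (∀ (w : ℕ) (M : MvPolynomial (I × ℕ) ℤ), IsWt w M →
      (∀ e ∈ M.support, ∀ i, 2 * wtI i e ≤ (𝓕 i).N ∧ 2 * wtI i e < (𝓕 i).F₀.natDegree) →
      (Odd w → inv M = 0) ∧ (Even w → rkM (fun i => (𝓕 i).rk) M = 0) ∧
      ∀ k : ℤ, ∃ κ : ℤ, 2 * κ = k ^ 2 * (inv (M ^ 2) - inv M ^ 2) + k * (inv (psi2 M) - inv M) ∧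
      ∃ G : ℂ → ℂ, DifferentiableOn ℂ G {s | (w : ℝ) / 2 + 1 / 3 < s.re} ∧
        (∀ x : ℝ, (w : ℝ) / 2 + 1 / 3 < x → ∃ r : ℝ, 0 < r ∧ G x = r) ∧
        (∃ c : ℝ, 0 < c ∧ Tendsto (fun x : ℝ =>
          ((x : ℂ) - ((w / 2 : ℕ) + 1)) ^ (k * (inv M - rkM (fun i => (𝓕 i).rk) M) + if Even w then 0 else κ) *
          (dedekindZeta K (x - (w / 2 : ℕ)) ^ (k * (inv M - rkM (fun i => (𝓕 i).rk) M)) *
            dedekindZeta K (2 * x - w) ^ κ * G x)) (𝓝[>] (((w / 2 : ℕ) : ℝ) + 1)) (𝓝 (c : ℂ))) ∧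
        ∀ (ι : Type) [Fintype ι] [DecidableEq ι] (ω : Module.Basis ι ℤ (𝓞 K)),
          (∀ δ : ℝ, 0 < δ → ∀ ε : ℝ, 0 < ε → ∃ B : ℕ, ∀ H : (Σ i, J i) → ℕ, (∀ j, B ≤ H j) →
            ∀ s : ℂ, (w : ℝ) / 2 + 1 + δ ≤ s.re →
            ‖mean ω H (smooth 𝓕) (fun t => Run7.h61.JL.LSeries w M (curve 𝓕 t) s ^ k) -
              dedekindZeta K (s - (w / 2 : ℕ)) ^ (k * (inv M - rkM (fun i => (𝓕 i).rk) M)) *
                dedekindZeta K (2 * s - w) ^ κ * G s‖ ≤ ε) ∧
          (∀ σ : ℝ, (w : ℝ) / 2 + 1 / 3 < σ → ∀ θ : ℝ, 0 < θ → ∀ ε : ℝ, 0 < ε → ∃ Z₀ : ℕ, ∀ Z : ℕ, Z₀ ≤ Z →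
            ∀ H : (Σ i, J i) → ℕ, (∀ j, Real.exp ((Z : ℝ) ^ (1 + θ)) ≤ H j) → ∀ s : ℂ, σ ≤ s.re →
            ‖mean ω H (smooth 𝓕) (fun t => Run7.h61.JL.partialProduct Z w M (curve 𝓕 t) s ^ k) *
              (partialZeta K Z (s - (w / 2 : ℕ)) ^ (k * (inv M - rkM (fun i => (𝓕 i).rk) M)) *
                partialZeta K Z (2 * s - w) ^ κ)⁻¹ - G s‖ ≤ ε)) ∧
    (∀ (L : Type) [Fintype L] [DecidableEq L] (c : L → I) (n : L → ℕ) (ρ : I → ℕ),
      inv (∏ l, MvPolynomial.X (c l, n l)) = (∏ i, graphNumber (fun l : {l // c l = i} => n l.1) : ℕ) ∧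
      rkM ρ (∏ l, MvPolynomial.X (c l, n l)) = (∑ l with 1 ≤ n l, ρ (c l) *
        ∏ i, graphNumber (fun l' : {l' // c l' = i} => low n l l'.1) : ℕ)) ∧
    ∀ (i : I) (n : ℕ), IsWt n (MvPolynomial.X (i, n) : MvPolynomial (I × ℕ) ℤ) ∧
      (2 * n ≤ (𝓕 i).N → 2 * n < (𝓕 i).F₀.natDegree → ∀ e ∈ (MvPolynomial.X (i, n) : MvPolynomial (I × ℕ) ℤ).support,
        ∀ i', 2 * wtI i' e ≤ (𝓕 i').N ∧ 2 * wtI i' e < (𝓕 i').F₀.natDegree) ∧
      inv (MvPolynomial.X (i, n)) = (if Even n then 1 else 0) ∧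
      rkM (fun i => (𝓕 i).rk) (MvPolynomial.X (i, n)) = (if Odd n then ((𝓕 i).rk : ℤ) else 0) ∧
      inv (MvPolynomial.X (i, n) ^ 2) = ((n / 2 + 1 : ℕ) : ℤ) ∧
      inv (psi2 (MvPolynomial.X (i, n))) = (-1) ^ n * ((n / 2 + 1 : ℕ) : ℤ) := by
  classical
  refine ⟨fun w M hM hB => ⟨fun hw => inv_odd hM hw, fun hw => rkM_even _ hM hw, fun k => ?_⟩,
    fun L _ _ c n ρ => ⟨inv_prod c n, rkM_prod ρ c n⟩, fun i n => ⟨isWt_X i n, fun h1 h2 e he i' => ?_, inv_X i n, rkM_X _ i n,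
      inv_XX' i n, inv_psi2_X i n⟩⟩
  · obtain ⟨𝓓, ha, hw', hR, hρ, hV, hη⟩ := exists_dat 𝓕 hM hB
    -- the second exponent
    have hpar : Even (inv (M ^ 2) - inv (psi2 M)) := lin_parity _ M
    obtain ⟨κ, hκ⟩ : ∃ κ : ℤ, 2 * κ = k ^ 2 * (inv (M ^ 2) - inv M ^ 2) + k * (inv (psi2 M) - inv M) := by
      have h1 : Even (k ^ 2 * (inv (M ^ 2) - inv M ^ 2) + k * (inv (psi2 M) - inv M)) := by
        obtain ⟨a, ha⟩ := hpar
        have e : k ^ 2 * (inv (M ^ 2) - inv M ^ 2) + k * (inv (psi2 M) - inv M) =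
            k * (k + 1) * inv (psi2 M) + 2 * (k ^ 2 * a) - (k * inv M) * (k * inv M + 1) := by
          have : inv (M ^ 2) = inv (psi2 M) + 2 * a := by linarith
          rw [this]; ring
        rw [e]
        exact ((((Int.even_mul_succ_self k)).mul_right _).add (even_two_mul _)).sub (Int.even_mul_succ_self _)
      obtain ⟨κ, h2⟩ := h1
      exact ⟨κ, by rw [h2]; ring⟩
    refine ⟨κ, hκ, ?_⟩
    set n : ℤ := k * (inv M - rkM (fun i => (𝓕 i).rk) M) with hn
    set cz : Fin 2 → ℤ := ![n, κ] with hcz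
    have hc : (![𝓓.c₀ (k : ℂ), 𝓓.c₁ (k : ℂ)] : Fin 2 → ℂ) = fun l => (cz l : ℂ) := by
      funext l
      fin_cases l
      · show 𝓓.c₀ (k : ℂ) = ((n : ℤ) : ℂ)
        unfold Dat.c₀
        rw [hR, hρ, hn]
        push_cast
        rfl
      · show 𝓓.c₁ (k : ℂ) = ((κ : ℤ) : ℂ)
        unfold Dat.c₁
        rw [hR, hV, hη]
        have h1 : (2 : ℂ) * κ = k ^ 2 * ((inv (M ^ 2) : ℤ) - (inv M : ℤ) ^ 2) + k * ((inv (psi2 M) : ℤ) - (inv M : ℤ)) := by
          exact_mod_cast congrArg (Int.cast (R := ℂ)) hκ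
        rw [← h1]
        ring
    have hmaj := 𝓓.maj (k : ℂ)
    rw [hc] at hmaj
    have hh : 𝓓.A.h = (w : ℝ) / 2 := by rw [𝓓.hw, hw']
    have hadm := 𝓓.adm
    have he0 : 𝓓.e 0 = w / 2 := by show 𝓓.w / 2 = w / 2; rw [hw']
    have he1 : 𝓓.e 1 = w := hw'
    have hf0 : Dat.f 0 = 1 := rfl
    have hf1 : Dat.f 1 = 2 := rfl
    have hdiff : DifferentiableOn ℂ (Run7.h876.GN.GG 𝓓.A 𝓓.e Dat.f (k : ℂ) (fun l => (cz l : ℂ))) {s | (w : ℝ) / 2 + 1 / 3 < s.re} := by
      have h := Run7.h876.GN.GG_diff hadm hmaj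
      rw [hh] at h
      exact h
    have hreal : ∀ x : ℝ, (w : ℝ) / 2 + 1 / 3 < x → ∃ r : ℝ, 0 < r ∧
        Run7.h876.GN.GG 𝓓.A 𝓓.e Dat.f (k : ℂ) (fun l => (cz l : ℂ)) x = r := by
      intro x hx
      have e1 : (fun l => (cz l : ℂ)) = fun l => (((cz l : ℝ)) : ℂ) := by funext l; push_cast; rfl
      have e2 : (k : ℂ) = ((k : ℝ) : ℂ) := by push_cast; rfl
      rw [e1, e2] at hmaj ⊢
      exact Run7.h876.GN.GG_real hmaj (by rw [hh]; exact hx)
    refine ⟨_, hdiff, hreal, lim_main K w n κ hdiff hreal, fun ι _ _ ω => ⟨fun δ hδ ε hε => ?_, fun σ hσ θ hθ ε hε => ?_⟩⟩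
    · obtain ⟨B, hB'⟩ := Run7.h876.GN.part1 ω hadm hmaj (thin_smooth 𝓕 ω) (σ := (w : ℝ) / 2 + 1 + δ) (by rw [hh]; linarith)
        (by rw [hh]; linarith) (fun l => by
          have h1 : (((w / 2 : ℕ)) : ℝ) ≤ (w : ℝ) / 2 := Nat.cast_div_le
          fin_cases l
          · show 1 < ((Dat.f 0 : ℕ) : ℝ) * ((w : ℝ) / 2 + 1 + δ) - ((𝓓.e 0 : ℕ) : ℝ)
            rw [he0, hf0]
            push_cast
            linarith
          · show 1 < ((Dat.f 1 : ℕ) : ℝ) * ((w : ℝ) / 2 + 1 + δ) - ((𝓓.e 1 : ℕ) : ℝ)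
            rw [he1, hf1]
            push_cast
            linarith) hε
      refine ⟨B, fun H hH s hs => ?_⟩
      have h := hB' H hH s hs
      have e1 : (fun t => Run7.h61.JL.LSeries w M (curve 𝓕 t) s ^ k) = fun t => Run7.h876.GN.LL 𝓓.A t s ^ k := by
        funext t
        congr 1
        unfold Run7.h61.JL.LSeries Run7.h876.GN.LL Run7.h876.GN.ef
        refine tprod_congr fun v => ?_
        rw [factor_eq, ha]
      rw [Fin.prod_univ_two, he0, he1, hf0, hf1] at h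
      rw [e1]
      have e2 : cz 0 = n := rfl
      have e3 : cz 1 = κ := rfl
      rw [e2, e3] at h
      push_cast at h ⊢
      rw [one_mul] at h
      exact h
    · obtain ⟨Z₀, hZ₀⟩ := Run7.h876.GN.part2 ω hadm hmaj (Cb := ∑ i, (((𝓕 i).F₀.natDegree + (𝓕 i).r : ℕ) : ℝ))
        (Finset.sum_nonneg fun i _ => by positivity) (thin_smooth 𝓕 ω) (σ := σ) (by rw [hh]; exact hσ) hθ hε
      refine ⟨Z₀, fun Z hZ H hH s hs => ?_⟩
      have h := hZ₀ Z hZ H hH s hs
      have e1 : (fun t => Run7.h61.JL.partialProduct Z w M (curve 𝓕 t) s ^ k) =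
          fun t => (∏ v ∈ Run7.h876.MM.SZ K Z, Run7.h876.GN.ef 𝓓.A v (rd v t) s) ^ k := by
        funext t
        congr 1
        unfold Run7.h61.JL.partialProduct Run7.h876.GN.ef
        rw [tprod_eq_prod (s := Run7.h876.MM.SZ K Z) (fun v hv => if_neg fun h => hv (Run7.h876.MM.mem_SZ.2 h))]
        refine Finset.prod_congr rfl fun v hv => ?_
        rw [if_pos (Run7.h876.MM.mem_SZ.1 hv), factor_eq, ha]
      rw [Fin.prod_univ_two, he0, he1, hf0, hf1] at h
      have e2 : cz 0 = n := rfl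
      have e3 : cz 1 = κ := rfl
      rw [e2, e3] at h
      rw [e1, mul_inv]
      push_cast at h ⊢
      rw [one_mul] at h
      exact h
  · rw [MvPolynomial.support_X, Finset.mem_singleton] at he
    rw [he, wtI_single]
    by_cases h : i = i'
    · subst h
      rw [if_pos rfl, mul_one]
      exact ⟨h1, h2⟩
    · rw [if_neg h, mul_zero]
      have := (𝓕 i').deg_three
      exact ⟨Nat.zero_le _, by omega⟩

end Pool.Agent.Results.MP_b8021b_nt.ExteriorPowersOnAverage
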