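import Pool.Agent.Run7.h780.TW.Uni
import Pool.Agent.Run7.h780.TW.Stm

/-!
# An isotropic system of subgroups of infinite rank for all elliptic curves with good reduction

`p` is an odd prime and `θ` an embedding of the algebraic numbers in the algebraic closure of `ℚ_p`.  The
conjecture of Beilinson and Bloch (with the conjecture of Birch and Swinnerton-Dyer) predicts that all the
zero-cycles `([P] - [0]) × ([Q] - [0])` on products `E × E'` of elliptic curves over `ℚ̄` are rationally
equivalent to zero.  We find for all elliptic curves `E : y² = x³ + a x + b` over `ℚ̄` with good reduction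
at `θ` at once subgroups `Λ_E` of `E(ℚ̄)` of infinite rank, such that this is true for all `E`, `E'`, all `P`
in `Λ_E` and all `Q` in `Λ_E'`.  If `L` is a number field unramified at `p` which contains `a` and `b`, then
no point of `Λ_E` except the origin is defined over `L`.  (Every finite set of elliptic curves has good
reduction at all places over almost all `p`.)
-/

set_option autoImplicit false

namespace Pool.Agent.Results.MP_b8021b_nt.IsotropicSystem

open Pool.Agent.Run7.h780.ZS

open scoped Classical in
theorem result {p : ℕ} [Fact p.Prime] (hp : p ≠ 2) (θ : AlgebraicClosure ℚ →+* PadicAlgCl p) :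
    ∃ P : (a b : AlgebraicClosure ℚ) → ℕ → Pt a b,
      (∀ a b c d, GoodReduction θ a b → GoodReduction θ c d →
        ∀ x ∈ AddSubgroup.closure (Set.range (P a b)),
        ∀ y ∈ AddSubgroup.closure (Set.range (P c d)), cyc x y ∈ RatEquivZero a b c d) ∧
      (∀ a b, GoodReduction θ a b → LinearIndependent ℤ (P a b)) ∧
      ∀ a b, GoodReduction θ a b → ∀ (L : Subfield (AlgebraicClosure ℚ)) [NumberField L],
        a ∈ L → b ∈ L → ¬ (p : ℤ) ∣ NumberField.discr L → ∀ m : ℕ →₀ ℤ, m ≠ 0 →
          ¬ CoordsIn L (m.sum fun n t => t • P a b n) := by
  exact Pool.Agent.Run7.h780.TW.universal hp θ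

end Pool.Agent.Results.MP_b8021b_nt.IsotropicSystem
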